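import Pool.Agent.TH82.FG.Fin
import Pool.Agent.TH82.FG.SepIPf
import Pool.Agent.TH63.SC.Geom

set_option autoImplicit false

/-!
# A product of two groups with the maximum condition need not satisfy it (MP_e1b29e_al, Q2)
-/

namespace Pool.Agent.Results.MP_e1b29e_al.MaxProduct

/-- if all subgroups are finitely generated, then every nonempty set of subgroups has a
maximal element -/
theorem max_of_fg {G : Type} [Group G] (h : ∀ H : Subgroup G, H.FG) (S : Set (Subgroup G))
    (hS : S.Nonempty) : ∃ M ∈ S, ∀ N ∈ S, M ≤ N → N = M := by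
  have hw : WellFoundedGT (Subgroup G) := by
    rw [wellFoundedGT_iff_monotone_chain_condition]
    intro a
    have hdir : Directed (· ≤ ·) (fun n => a n) := a.monotone.directed_le
    obtain ⟨F, hF⟩ := h (⨆ n, a n)
    have h1 : ∀ x ∈ F, ∃ n, x ∈ a n := by
      intro x hx
      have : x ∈ ⨆ n, a n := by
        rw [← hF]; exact Subgroup.subset_closure hx
      exact (Subgroup.mem_iSup_of_directed hdir).1 this
    choose! f hf using h1
    refine ⟨F.sup f, fun m hm => ?_⟩
    refine le_antisymm (a.monotone hm) ?_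
    refine (le_iSup (fun n => a n) m).trans ?_
    rw [← hF, Subgroup.closure_le]
    intro x hx
    exact a.monotone (Finset.le_sup (f := f) hx) (hf x hx)
  obtain ⟨M, hM, hM'⟩ := hw.wf.has_min S hS
  refine ⟨M, hM, fun N hN hMN => ?_⟩
  by_contra hne
  exact hM' N hN (lt_of_le_of_ne hMN (Ne.symm hne))

/-- if every nonempty set of subgroups has a maximal element, then all subgroups are finitely
generated -/
theorem fg_of_max {G : Type} [Group G]
    (h : ∀ S : Set (Subgroup G), S.Nonempty → ∃ M ∈ S, ∀ N ∈ S, M ≤ N → N = M)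
    (H : Subgroup G) : H.FG := by
  classical
  obtain ⟨M, ⟨hM1, F, hF⟩, hM3⟩ := h {K | K ≤ H ∧ K.FG} ⟨⊥, bot_le, Subgroup.FG.bot⟩
  have : M = H := by
    refine le_antisymm hM1 fun x hx => ?_
    have h1 : Subgroup.closure ((insert x F : Finset G) : Set G) ≤ H := by
      rw [Subgroup.closure_le, Finset.coe_insert]
      intro y hy
      rcases hy with rfl | hy
      · exact hx
      · exact hM1 (hF ▸ Subgroup.subset_closure hy)
    have h2 := hM3 _ ⟨h1, ⟨insert x F, rfl⟩⟩ (by
      rw [← hF]
      exact Subgroup.closure_mono (by rw [Finset.coe_insert]; exact Set.subset_insert _ _))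
    rw [← h2]
    exact Subgroup.subset_closure (by simp)
  rw [← this]
  exact ⟨F, hF⟩

/-- There is a group `G = AB` such that the subgroups `A` and `B` satisfy the maximum condition on
subgroups (every nonempty set of subgroups has a maximal element), but `G` does not. -/
theorem result :
    ∃ (G : Type) (_ : Group G) (A B : Subgroup G),
      (∀ g : G, ∃ a ∈ A, ∃ b ∈ B, g = a * b) ∧
      (∀ S : Set (Subgroup A), S.Nonempty → ∃ M ∈ S, ∀ N ∈ S, M ≤ N → N = M) ∧
      (∀ S : Set (Subgroup B), S.Nonempty → ∃ M ∈ S, ∀ N ∈ S, M ≤ N → N = M) ∧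
      ¬ (∀ S : Set (Subgroup G), S.Nonempty → ∃ M ∈ S, ∀ N ∈ S, M ≤ N → N = M) := by
  obtain ⟨R, hR⟩ := Pool.Agent.TH82.FG.exists_lim Pool.Agent.TH82.FG.geomI
    Pool.Agent.TH82.FG.geomII Pool.Agent.TH82.FG.sepI
  obtain ⟨G, hG, A, B, hA, hB, hAB, hn⟩ := Pool.Agent.TH82.FG.final_max hR
  have key : ∀ C : Subgroup G, (∀ H : Subgroup G, H ≤ C → H.FG) → ∀ H : Subgroup C, H.FG := by
    intro C hC H
    have h1 := hC (H.map C.subtype) (Subgroup.map_subtype_le H)
    exact (Subgroup.fg_iff_submonoid_fg H).2 (Submonoid.FG.map_injective C.subtype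
      C.subtype_injective ((Subgroup.fg_iff_submonoid_fg (H.map C.subtype)).1 h1))
  refine ⟨G, hG, A, B, fun g => ?_, max_of_fg (key A hA), max_of_fg (key B hB), fun h => ?_⟩
  · obtain ⟨a, ha, b, hb, h⟩ := hAB g
    exact ⟨a, ha, b, hb, h.symm⟩
  · exact hn (fg_of_max h)

end Pool.Agent.Results.MP_e1b29e_al.MaxProduct
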